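import Pool.Agent.Helper21.HC.Ty

/-!
# HC-11: the sides of the cells of the big cluster match
-/

namespace Pool.Agent.Helper79.HC

/-- The facts of HC-7 and HC-9 used below. -/
structure MatchFacts : Prop where
  symm : ∀ {C C' : Cell} {k : Fin 6}, Match C C' k → Match C' C (k + 3)
  rot : ∀ {C C' : Cell} {k : Fin 6}, Match C C' k → ∀ r : Fin 6,
    Match (C.rot r) (C'.rot r) (k + r)
  p5 : ∀ r : Fin 6, (proto 5).rot r = proto 5
  m55 : ∀ k : Fin 6, Match (proto 5) (proto 5) k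
  mT : Match (proto 0) (proto 1) 2 ∧ Match (proto 0) (proto 1) 4 ∧
    Match (proto 0) (proto 2) 3 ∧ Match (proto 1) (proto 2) 2 ∧ Match (proto 1) (proto 2) 4 ∧
    Match (proto 1) (proto 3) 3 ∧ Match (proto 2) (proto 3) 2 ∧ Match (proto 2) (proto 3) 4 ∧
    Match (proto 2) (proto 5) 3 ∧ Match (proto 3) (proto 5) 2 ∧ Match (proto 3) (proto 5) 3 ∧
    Match (proto 3) (proto 5) 4
  mZ : Match (proto 4) (proto 4) 1 ∧ Match (proto 4) (proto 5) 2 ∧
    Match (proto 4) (proto 5) 3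

/-- the change of the distance to side `r` -/
def epsA : Fin 6 → ℤ := ![-1, 0, 1, 1, 0, -1]

/-- the change of the distance to side `r + 1` -/
def epsB : Fin 6 → ℤ := ![-1, -1, 0, 1, 1, 0]

theorem w_stepA (A : ℤ) (c : ℤ × ℤ) (r j : Fin 6) :
    w A r (c + dl (j + r)) = w A r c + epsA j := by
  obtain ⟨a, b⟩ := c
  fin_cases r <;> fin_cases j <;> simp [w, dl, epsA] <;> ring

theorem w_stepB (A : ℤ) (c : ℤ × ℤ) (r j : Fin 6) :
    w A (r + 1) (c + dl (j + r)) = w A (r + 1) c + epsB j := by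
  obtain ⟨a, b⟩ := c
  fin_cases r <;> fin_cases j <;> simp [w, dl, epsB] <;> ring

theorem cell_of_ty {A D : ℤ} {c : ℤ × ℤ} (hc : InK A D c) {t r : Fin 6}
    (h : ty A D c = (t, r)) : cellAt A D c = (proto t).rot r := by
  unfold cellAt
  rw [if_pos hc, h]

theorem cell_of_five (F : MatchFacts) {A D : ℤ} {c : ℤ × ℤ} (hc : InK A D c)
    (h1 : ∀ k, D + 2 ≤ w A k c + w A (k + 1) c) (h2 : ∀ k, w A k c ≠ 0) (r : Fin 6) :
    cellAt A D c = (proto 5).rot r := by
  rw [cell_of_ty hc (ty_eq_5 h1 h2), F.p5, F.p5]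

theorem match_ofT (F : MatchFacts) {A D : ℤ} (hD : 10 ≤ D) (hA : 4 * D ≤ A) {c : ℤ × ℤ} {r j : Fin 6}
    (hc : InK A D c) (hk : InK A D (c + dl (j + r)))
    (h : w A r c + w A (r + 1) c ≤ D + 1) :
    Match (cellAt A D c) (cellAt A D (c + dl (j + r))) (j + r) := by
  have hcr := hc r
  have hkr := hk r
  have hA' := w_stepA A c r j
  have hB' := w_stepB A c r j
  obtain ⟨a1, a2, a3, a4, a5, a6, a7, a8, a9, a10, a11, a12⟩ := F.mT
  -- the type of c
  have T : ∀ c : ℤ × ℤ, InK A D c →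
      (w A r c + w A (r + 1) c = D - 2 → cellAt A D c = (proto 0).rot r) ∧
      (w A r c + w A (r + 1) c = D - 1 → cellAt A D c = (proto 1).rot r) ∧
      (w A r c + w A (r + 1) c = D → cellAt A D c = (proto 2).rot r) ∧
      (w A r c + w A (r + 1) c = D + 1 → cellAt A D c = (proto 3).rot r) := by
    intro c hc
    refine ⟨fun h => ?_, fun h => ?_, fun h => ?_, fun h => ?_⟩
    · exact cell_of_ty hc (ty_eq_T hD hA hc r 0 (by simpa using h))
    · exact cell_of_ty hc (ty_eq_T hD hA hc r 1 (by rw [h]; norm_num; ring))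
    · exact cell_of_ty hc (ty_eq_T hD hA hc r 2 (by rw [h]; norm_num))
    · exact cell_of_ty hc (ty_eq_T hD hA hc r 3 (by
        rw [h]
        show D + 1 = D - 2 + ((3 : ℕ) : ℤ)
        push_cast
        ring))
  obtain ⟨T0, T1, T2, T3⟩ := T c hc
  obtain ⟨U0, U1, U2, U3⟩ := T _ hk
  have U5 : D + 2 ≤ w A r (c + dl (j + r)) + w A (r + 1) (c + dl (j + r)) →
      w A r (c + dl (j + r)) + w A (r + 1) (c + dl (j + r)) ≤ D + 3 →
      w A r (c + dl (j + r)) ≠ 0 → w A (r + 1) (c + dl (j + r)) ≠ 0 →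
      cellAt A D (c + dl (j + r)) = (proto 5).rot r := by
    intro a1 a2 a3 a4
    obtain ⟨b1, b2⟩ := w_hex hD hA (fun k => (hk k).1) a1 a2 a3 a4
    exact cell_of_five F hk b1 b2 r
  have hS : w A r c + w A (r + 1) c = D - 2 ∨ w A r c + w A (r + 1) c = D - 1 ∨
      w A r c + w A (r + 1) c = D ∨ w A r c + w A (r + 1) c = D + 1 := by omega
  have hj : j = 0 ∨ j = 1 ∨ j = 2 ∨ j = 3 ∨ j = 4 ∨ j = 5 := by
    fin_cases j <;> simp
  rcases hj with rfl | rfl | rfl | rfl | rfl | rfl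
  · have e1 : epsA 0 = -1 := rfl
    have e2 : epsB 0 = -1 := rfl
    rw [e1] at hA'
    rw [e2] at hB'
    rcases hS with hS | hS | hS | hS
    · exfalso; omega
    · exfalso; omega
    · rw [T2 hS, U0 (by omega)]; exact F.rot (F.symm a3) r
    · rw [T3 hS, U1 (by omega)]; exact F.rot (F.symm a6) r
  · have e1 : epsA 1 = 0 := rfl
    have e2 : epsB 1 = -1 := rfl
    rw [e1] at hA'
    rw [e2] at hB'
    rcases hS with hS | hS | hS | hS
    · exfalso; omega
    · rw [T1 hS, U0 (by omega)]; exact F.rot (F.symm a2) r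
    · rw [T2 hS, U1 (by omega)]; exact F.rot (F.symm a5) r
    · rw [T3 hS, U2 (by omega)]; exact F.rot (F.symm a8) r
  · have e1 : epsA 2 = 1 := rfl
    have e2 : epsB 2 = 0 := rfl
    rw [e1] at hA'
    rw [e2] at hB'
    rcases hS with hS | hS | hS | hS
    · rw [T0 hS, U1 (by omega)]; exact F.rot a1 r
    · rw [T1 hS, U2 (by omega)]; exact F.rot a4 r
    · rw [T2 hS, U3 (by omega)]; exact F.rot a7 r
    · rw [T3 hS, U5 (by omega) (by omega) (by omega) (by omega)]; exact F.rot a10 r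
  · have e1 : epsA 3 = 1 := rfl
    have e2 : epsB 3 = 1 := rfl
    rw [e1] at hA'
    rw [e2] at hB'
    rcases hS with hS | hS | hS | hS
    · rw [T0 hS, U2 (by omega)]; exact F.rot a3 r
    · rw [T1 hS, U3 (by omega)]; exact F.rot a6 r
    · rw [T2 hS, U5 (by omega) (by omega) (by omega) (by omega)]; exact F.rot a9 r
    · rw [T3 hS, U5 (by omega) (by omega) (by omega) (by omega)]; exact F.rot a11 r
  · have e1 : epsA 4 = 0 := rfl
    have e2 : epsB 4 = 1 := rfl
    rw [e1] at hA'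
    rw [e2] at hB'
    rcases hS with hS | hS | hS | hS
    · rw [T0 hS, U1 (by omega)]; exact F.rot a2 r
    · rw [T1 hS, U2 (by omega)]; exact F.rot a5 r
    · rw [T2 hS, U3 (by omega)]; exact F.rot a8 r
    · rw [T3 hS, U5 (by omega) (by omega) (by omega) (by omega)]; exact F.rot a12 r
  · have e1 : epsA 5 = -1 := rfl
    have e2 : epsB 5 = 0 := rfl
    rw [e1] at hA'
    rw [e2] at hB'
    rcases hS with hS | hS | hS | hS
    · exfalso; omega
    · rw [T1 hS, U0 (by omega)]; exact F.rot (F.symm a1) r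
    · rw [T2 hS, U1 (by omega)]; exact F.rot (F.symm a4) r
    · rw [T3 hS, U2 (by omega)]; exact F.rot (F.symm a7) r

theorem match_ofZ (F : MatchFacts) {A D : ℤ} (hD : 10 ≤ D) (hA : 4 * D ≤ A) {c : ℤ × ℤ} {r j : Fin 6}
    (hc : InK A D c) (hk : InK A D (c + dl (j + r))) (h : w A r c = 0) :
    Match (cellAt A D c) (cellAt A D (c + dl (j + r))) (j + r) := by
  have hkr := hk r
  have hA' := w_stepA A c r j
  obtain ⟨a1, a2, a3⟩ := F.mZ
  have hcell : cellAt A D c = (proto 4).rot r := cell_of_ty hc (ty_eq_Z hD hA hc r h)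
  have U4 : w A r (c + dl (j + r)) = 0 → cellAt A D (c + dl (j + r)) = (proto 4).rot r :=
    fun h' => cell_of_ty hk (ty_eq_Z hD hA hk r h')
  have U5 : w A r (c + dl (j + r)) = 1 → cellAt A D (c + dl (j + r)) = (proto 5).rot r := by
    intro h'
    obtain ⟨b1, b2⟩ := w_one hD hA hk h'
    exact cell_of_five F hk b1 b2 r
  rw [hcell]
  have hj : j = 0 ∨ j = 1 ∨ j = 2 ∨ j = 3 ∨ j = 4 ∨ j = 5 := by
    fin_cases j <;> simp
  rcases hj with rfl | rfl | rfl | rfl | rfl | rfl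
  · have e1 : epsA 0 = -1 := rfl
    rw [e1] at hA'
    exfalso; omega
  · have e1 : epsA 1 = 0 := rfl
    rw [e1] at hA'
    rw [U4 (by omega)]; exact F.rot a1 r
  · have e1 : epsA 2 = 1 := rfl
    rw [e1] at hA'
    rw [U5 (by omega)]; exact F.rot a2 r
  · have e1 : epsA 3 = 1 := rfl
    rw [e1] at hA'
    rw [U5 (by omega)]; exact F.rot a3 r
  · have e1 : epsA 4 = 0 := rfl
    rw [e1] at hA'
    rw [U4 (by omega)]; exact F.rot (F.symm a1) r
  · have e1 : epsA 5 = -1 := rfl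
    rw [e1] at hA'
    exfalso; omega

theorem dl_opp (k : Fin 6) (c : ℤ × ℤ) : c + dl k + dl (k + 3) = c := by
  obtain ⟨a, b⟩ := c
  fin_cases k <;> simp [dl]

theorem match_back (F : MatchFacts) {A D : ℤ} {c : ℤ × ℤ} {k : Fin 6}
    (h : Match (cellAt A D (c + dl k)) (cellAt A D (c + dl k + dl (k + 3))) (k + 3)) :
    Match (cellAt A D c) (cellAt A D (c + dl k)) k := by
  rw [dl_opp] at h
  have h1 := F.symm h
  have e : k + 3 + 3 = k := by fin_cases k <;> rfl
  rw [e] at h1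
  exact h1

theorem match_big_of (F : MatchFacts) {A D : ℤ} (hD : 10 ≤ D) (hA : 4 * D ≤ A) {c : ℤ × ℤ} {k : Fin 6}
    (hc : InK A D c) (hk : InK A D (c + dl k)) :
    Match (cellAt A D c) (cellAt A D (c + dl k)) k := by
  have hT : ∀ (c : ℤ × ℤ) (k : Fin 6), InK A D c → InK A D (c + dl k) →
      (∃ r : Fin 6, w A r c + w A (r + 1) c ≤ D + 1) →
      Match (cellAt A D c) (cellAt A D (c + dl k)) k := by
    rintro c k hc hk ⟨r, hr⟩
    have e : k = (k - r) + r := by simp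
    rw [e] at hk ⊢
    exact match_ofT F hD hA hc hk hr
  have hZ : ∀ (c : ℤ × ℤ) (k : Fin 6), InK A D c → InK A D (c + dl k) →
      (∃ r : Fin 6, w A r c = 0) →
      Match (cellAt A D c) (cellAt A D (c + dl k)) k := by
    rintro c k hc hk ⟨r, hr⟩
    have e : k = (k - r) + r := by simp
    rw [e] at hk ⊢
    exact match_ofZ F hD hA hc hk hr
  have hk3 : InK A D (c + dl k + dl (k + 3)) := by rw [dl_opp]; exact hc
  by_cases c1 : ∃ r : Fin 6, w A r c + w A (r + 1) c ≤ D + 1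
  · exact hT c k hc hk c1
  by_cases c2 : ∃ r : Fin 6, w A r c = 0
  · exact hZ c k hc hk c2
  by_cases c3 : ∃ r : Fin 6, w A r (c + dl k) + w A (r + 1) (c + dl k) ≤ D + 1
  · exact match_back F (hT _ _ hk hk3 c3)
  by_cases c4 : ∃ r : Fin 6, w A r (c + dl k) = 0
  · exact match_back F (hZ _ _ hk hk3 c4)
  push Not at c1 c2 c3 c4
  rw [cell_of_five F hc (fun k => by have := c1 k; omega) c2 0,
    cell_of_five F hk (fun k => by have := c3 k; omega) c4 0, F.p5]
  exact F.m55 k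

end Pool.Agent.Helper79.HC
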