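import Pool.Agent.Helper79.HC.Defs

/-!
# HC-11, first part: the types of the cells
-/

namespace Pool.Agent.Helper79.HC

theorem w_uniq_T {A D : ℤ} (hD : 10 ≤ D) (hA : 4 * D ≤ A) {c : ℤ × ℤ}
    (hn : ∀ k, 0 ≤ w A k c) {k r : Fin 6} (hk : w A k c + w A (k + 1) c ≤ D + 3)
    (hr : w A r c + w A (r + 1) c ≤ D + 3) : k = r := by
  obtain ⟨i, j⟩ := c
  have h0 := hn 0
  have h1 := hn 1
  have h2 := hn 2
  have h3 := hn 3
  have h4 := hn 4
  have h5 := hn 5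
  simp only [w] at h0 h1 h2 h3 h4 h5
  fin_cases k <;> fin_cases r <;> first | rfl | (exfalso; simp [w] at hk hr; omega)

theorem w_hex {A D : ℤ} (hD : 10 ≤ D) (hA : 4 * D ≤ A) {c : ℤ × ℤ}
    (hn : ∀ k, 0 ≤ w A k c) {r : Fin 6} (h1 : D + 2 ≤ w A r c + w A (r + 1) c)
    (h2 : w A r c + w A (r + 1) c ≤ D + 3) (h3 : w A r c ≠ 0) (h4 : w A (r + 1) c ≠ 0) :
    (∀ k, D + 2 ≤ w A k c + w A (k + 1) c) ∧ (∀ k, w A k c ≠ 0) := by
  obtain ⟨i, j⟩ := c
  have g0 := hn 0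
  have g1 := hn 1
  have g2 := hn 2
  have g3 := hn 3
  have g4 := hn 4
  have g5 := hn 5
  simp only [w] at g0 g1 g2 g3 g4 g5
  constructor
  · intro k
    fin_cases r <;> simp [w] at h1 h2 h3 h4 <;> fin_cases k <;> simp [w] <;> omega
  · intro k
    fin_cases r <;> simp [w] at h1 h2 h3 h4 <;> fin_cases k <;> simp [w] <;> omega

theorem w_zero {A D : ℤ} (hD : 10 ≤ D) (hA : 4 * D ≤ A) {c : ℤ × ℤ} (hc : InK A D c) {r : Fin 6}
    (h : w A r c = 0) : (∀ k, D + 2 ≤ w A k c + w A (k + 1) c) ∧ (∀ k, w A k c = 0 → k = r) := by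
  obtain ⟨i, j⟩ := c
  have g0 := hc 0
  have g1 := hc 1
  have g2 := hc 2
  have g3 := hc 3
  have g4 := hc 4
  have g5 := hc 5
  simp [w] at g0 g1 g2 g3 g4 g5
  constructor
  · intro k
    fin_cases r <;> simp [w] at h <;> fin_cases k <;> simp [w] <;> omega
  · intro k hk
    fin_cases r <;> simp [w] at h <;> fin_cases k <;> first | rfl | (exfalso; simp [w] at hk; omega)

theorem w_one {A D : ℤ} (hD : 10 ≤ D) (hA : 4 * D ≤ A) {c : ℤ × ℤ} (hc : InK A D c) {r : Fin 6}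
    (h : w A r c = 1) : (∀ k, D + 2 ≤ w A k c + w A (k + 1) c) ∧
      ((∀ k, w A k c ≠ 0)) := by
  obtain ⟨i, j⟩ := c
  have g0 := hc 0
  have g1 := hc 1
  have g2 := hc 2
  have g3 := hc 3
  have g4 := hc 4
  have g5 := hc 5
  simp [w] at g0 g1 g2 g3 g4 g5
  constructor
  · intro k
    fin_cases r <;> simp [w] at h <;> fin_cases k <;> simp [w] <;> omega
  · intro k
    fin_cases r <;> simp [w] at h <;> fin_cases k <;> simp [w] <;> omega

theorem ty_eq_T {A D : ℤ} (hD : 10 ≤ D) (hA : 4 * D ≤ A) {c : ℤ × ℤ} (hc : InK A D c) (r : Fin 6)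
    (m : Fin 4) (h : w A r c + w A (r + 1) c = D - 2 + (m : ℕ)) :
    ty A D c = (m.castLE (by norm_num), r) := by
  have hm := m.2
  have hex : ∃ k : Fin 6, w A k c + w A (k + 1) c ≤ D + 1 := ⟨r, by omega⟩
  have hch : hex.choose = r := w_uniq_T hD hA (fun k => (hc k).1)
    (by have := hex.choose_spec; omega) (by omega)
  unfold ty
  rw [dif_pos hex]
  simp only [hch]
  fin_cases m <;> simp at h ⊢
  · simp [h]
  · rw [if_neg (by omega), if_pos (by omega)]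
  · rw [if_neg (by omega), if_neg (by omega), if_pos (by omega)]
  · rw [if_neg (by omega), if_neg (by omega), if_neg (by omega)]

theorem ty_eq_5 {A D : ℤ} {c : ℤ × ℤ} (h1 : ∀ k, D + 2 ≤ w A k c + w A (k + 1) c)
    (h2 : ∀ k, w A k c ≠ 0) : ty A D c = (5, 0) := by
  unfold ty
  rw [dif_neg, dif_neg]
  · rintro ⟨k, hk⟩
    exact h2 k hk
  · rintro ⟨k, hk⟩
    have := h1 k
    omega

theorem ty_eq_Z {A D : ℤ} (hD : 10 ≤ D) (hA : 4 * D ≤ A) {c : ℤ × ℤ} (hc : InK A D c) (r : Fin 6)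
    (h : w A r c = 0) : ty A D c = (4, r) := by
  obtain ⟨h1, h2⟩ := w_zero hD hA hc h
  have hex : ∃ k : Fin 6, w A k c = 0 := ⟨r, h⟩
  have hch : hex.choose = r := h2 _ hex.choose_spec
  unfold ty
  rw [dif_neg, dif_pos hex, hch]
  rintro ⟨k, hk⟩
  have := h1 k
  omega

end Pool.Agent.Helper79.HC
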